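import Pool.Agent.H90.D2.Aff
import Pool.Agent.H3.W.Nlp
import Pool.Agent.H31.W1.H80.GEN.Chn

/-!
# D2: the affine chain and the quadratic labels of a frame

`FrOK`: a frame which is a function of the point and of the line in the window `a`, such that the
velocities are natural in the frame. `aff_ch`: the affine labels of the frame form a chain of ball
labels (no information about curvature is needed). `lab_ok`: the quadratic labels of the frame are
visible labels. `lab_nr`: when the labels of two samples of one line and window are near.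
-/

set_option autoImplicit false

namespace Pool.W.D2F

open Pool.D2F

open Finset Real MvPolynomial
open Pool.Agent.H49.Ent Pool.Agent.H32.Dense Pool.STK Pool.KA Pool.KSAT Pool.K2S Pool.PB Pool.S6C
open Pool.GEN Pool.CHT Pool.CHX
open Pool.VIS24 (VPol Nr)

variable {m J : ℕ}


/-- A covector on a small vector. -/
theorem cv_small {c : ℕ → Fin m} {l e V : ℕ} {g : ℕ → ℕ} (hc : Set.InjOn c (Set.Iio l))
    {ψ W : Option (Fin m) → ℝ} (hψ : Pool.D2F.CvC c l ψ) (hlip : ∀ j < l, |ψ (some (c j))| ≤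
      2 ^ (e + Pool.W.GEN.nlp g j l)) (h0 : W none = 0) (h1 : ∀ k, |W (some k)| ≤ 1 / 2 ^ J)
    (hJ : ∀ j ≤ l, e + g j + V ≤ J) : |Pool.D2F.cv ψ W| ≤ l * (1 / 2 ^ (g l + V)) := by
  rw [Pool.D2F.cv_eq hc hψ, h0, mul_zero, zero_add]
  refine (Finset.abs_sum_le_sum_abs _ _).trans ?_
  have h2 : ∀ j ∈ range l, |ψ (some (c j)) * W (some (c j))| ≤ 1 / 2 ^ (g l + V) := by
    intro j hj
    have hj' := Finset.mem_range.1 hj
    rw [abs_mul]
    refine (mul_le_mul (hlip j hj') (h1 (c j)) (abs_nonneg _) (by positivity)).trans ?_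
    rw [mul_one_div, div_le_div_iff₀ (by positivity) (by positivity), one_mul, ← pow_add]
    refine pow_le_pow_right₀ (by norm_num) ?_
    have h3 : (Finset.range (l + 1)).sup g + e + V ≤ J := by
      obtain ⟨x, hx, hxe⟩ := Finset.exists_mem_eq_sup (Finset.range (l + 1))
        ⟨j, Finset.mem_range.2 (by omega)⟩ g
      rw [hxe]
      have := hJ x (by have := Finset.mem_range.1 hx; omega)
      omega
    have h4 : g l ≤ (Finset.range (l + 1)).sup g := Finset.le_sup (f := g)
      (Finset.mem_range.2 (by omega))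
    unfold Pool.W.GEN.nlp
    omega
  refine (Finset.sum_le_sum h2).trans (le_of_eq ?_)
  rw [Finset.sum_const, Finset.card_range, nsmul_eq_mul]

/-- The height of a small vector. -/
theorem ht_small {c : ℕ → Fin m} {l e V : ℕ} {g : ℕ → ℕ} (hc : Set.InjOn c (Set.Iio l))
    {ψ W : Option (Fin m) → ℝ} (hψ : Pool.D2F.CvC c l ψ) (hlip : ∀ j < l, |ψ (some (c j))| ≤
      2 ^ (e + Pool.W.GEN.nlp g j l)) (h0 : W none = 0) (h1 : ∀ k, |W (some k)| ≤ 1 / 2 ^ J)
    (hJ : ∀ j ≤ l, e + g j + V ≤ J) :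
    |W (some (c l)) - Pool.D2F.cv ψ W| ≤ (l + 1) * (1 / 2 ^ (g l + V)) := by
  have h2 := Pool.W.D2F.cv_small hc hψ hlip h0 h1 hJ
  have h3 := h1 (c l)
  have h4 : (1 : ℝ) / 2 ^ J ≤ 1 / 2 ^ (g l + V) := by
    refine one_div_le_one_div_of_le (by positivity) (pow_le_pow_right₀ (by norm_num) ?_)
    have := hJ l le_rfl
    omega
  have h5 : ((l : ℝ) + 1) * (1 / 2 ^ (g l + V)) = 1 / 2 ^ (g l + V) +
      l * (1 / 2 ^ (g l + V)) := by ring
  rw [h5]
  exact (abs_sub _ _).trans (add_le_add (h3.trans h4) h2)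


/-! ### The quadratic labels -/


end Pool.W.D2F
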